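import Pool.Agent.W785.FD.Stms

set_option autoImplicit false

/-! Project FD: Jensen for averages. -/

open MeasureTheory Metric Set Filter
open scoped ENNReal NNReal Topology
open Pool.Agent.W785.FD

namespace Pool.Agent.W591.FD.Jen

theorem main {X : Type*} [MetricSpace X] [ProperSpace X] [MeasurableSpace X] [BorelSpace X]
    (μ : Measure X) (D p : ℝ) (hD : Dbl μ D) (hp : 1 < p) : S_JEN μ p := by
  intro f hf x r hr
  have hp0 : 0 < p := by linarith
  have hpos : 0 < μ (ball x r) ∧ μ (ball x r) < ∞ := ⟨hD.pos x r hr, hD.fin x r⟩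
  obtain ⟨m0, m1⟩ := hpos
  have hq : p.HolderConjugate (p / (p - 1)) := by
    rw [Real.holderConjugate_iff]
    refine ⟨hp, ?_⟩
    have : p - 1 ≠ 0 := by linarith
    field_simp
    ring
  have h := ENNReal.lintegral_mul_le_Lp_mul_Lq (μ.restrict (ball x r)) hq
    (hf.mono_measure Measure.restrict_le_self) (g := fun _ => (1 : ℝ≥0∞)) aemeasurable_const
  simp only [Pi.mul_apply, mul_one, ENNReal.one_rpow, lintegral_const,
    Measure.restrict_apply MeasurableSet.univ, univ_inter, one_mul] at h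
  unfold lav
  set I : ℝ≥0∞ := ∫⁻ y in ball x r, f y ∂μ with hI
  set J : ℝ≥0∞ := ∫⁻ y in ball x r, f y ^ p ∂μ with hJ
  set M : ℝ≥0∞ := μ (ball x r) with hM
  rw [ENNReal.div_rpow_of_nonneg _ _ (by positivity)]
  rw [ENNReal.div_le_iff m0.ne' m1.ne]
  refine h.trans (le_of_eq ?_)
  rw [ENNReal.div_eq_inv_mul, mul_comm _ M, ← mul_assoc, mul_comm (J ^ (1 / p))]
  congr 1
  have e1 : 1 / (p / (p - 1)) = 1 - 1 / p := by
    have : p - 1 ≠ 0 := by linarith
    field_simp
  rw [e1, ENNReal.rpow_sub _ _ m0.ne' m1.ne, ENNReal.rpow_one, ENNReal.div_eq_inv_mul, mul_comm]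

end Pool.Agent.W591.FD.Jen
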